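import Pool.Agent.NGM.StmtsK

set_option autoImplicit false

namespace Pool.Agent.NGM.H27

open scoped Pointwise Classical
open Filter Topology

open scoped InnerProductSpace in
/-- the abstract form -/
theorem neg_of_inner {Q : Type*} [Group Q] {H : Type*} [NormedAddCommGroup H]
    [InnerProductSpace ℝ H] (v : Q → H)
    (hv : ∀ k g h, ⟪v (k * g), v (k * h)⟫_ℝ = ⟪v g, v h⟫_ℝ) :
    Neg (fun g => ⟪v 1, v 1⟫_ℝ - ⟪v g, v 1⟫_ℝ) := by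
  have hself : ∀ g, ⟪v g, v g⟫_ℝ = ⟪v 1, v 1⟫_ℝ := by
    intro g
    have := hv g 1 1
    rwa [mul_one] at this
  have hdist : ∀ g, ‖v g - v 1‖ ^ 2 = 2 * (⟪v 1, v 1⟫_ℝ - ⟪v g, v 1⟫_ℝ) := by
    intro g
    rw [← real_inner_self_eq_norm_sq, inner_sub_left, inner_sub_right, inner_sub_right, hself g,
      real_inner_comm (v g) (v 1)]
    ring
  have hdist2 : ∀ k g, ‖v (k * g) - v k‖ = ‖v g - v 1‖ := by
    intro k g
    have h1 : ‖v (k * g) - v k‖ ^ 2 = ‖v g - v 1‖ ^ 2 := by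
      rw [hdist g, ← real_inner_self_eq_norm_sq, inner_sub_left, inner_sub_right, inner_sub_right,
        hself (k * g), hself k, real_inner_comm (v (k * g)) (v k)]
      have h2 := hv k g 1
      rw [mul_one] at h2
      rw [h2]
      ring
    have h3 := norm_nonneg (v (k * g) - v k)
    have h4 := norm_nonneg (v g - v 1)
    nlinarith
  have hsq : ∀ g, √(⟪v 1, v 1⟫_ℝ - ⟪v g, v 1⟫_ℝ) = ‖v g - v 1‖ / √2 := by
    intro g
    have h1 : ⟪v 1, v 1⟫_ℝ - ⟪v g, v 1⟫_ℝ = ‖v g - v 1‖ ^ 2 / 2 := by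
      rw [hdist g]; ring
    rw [h1, Real.sqrt_div (by positivity), Real.sqrt_sq (norm_nonneg _)]
  have h2 : (0 : ℝ) < √2 := Real.sqrt_pos.2 (by norm_num)
  have h22 : √2 * √2 = (2 : ℝ) := Real.mul_self_sqrt (by norm_num)
  refine ⟨by simp, ?_, ?_, ?_, ?_⟩
  · intro g
    have h1 := hv g g⁻¹ 1
    rw [mul_inv_cancel, mul_one] at h1
    show ⟪v 1, v 1⟫_ℝ - ⟪v g⁻¹, v 1⟫_ℝ = ⟪v 1, v 1⟫_ℝ - ⟪v g, v 1⟫_ℝ
    rw [← h1, real_inner_comm (v g) (v 1)]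
  · intro g
    have := hdist g
    have h3 := sq_nonneg ‖v g - v 1‖
    show 0 ≤ ⟪v 1, v 1⟫_ℝ - ⟪v g, v 1⟫_ℝ
    linarith
  · intro g h
    show √(⟪v 1, v 1⟫_ℝ - ⟪v (g * h), v 1⟫_ℝ) ≤ √(⟪v 1, v 1⟫_ℝ - ⟪v g, v 1⟫_ℝ) +
      √(⟪v 1, v 1⟫_ℝ - ⟪v h, v 1⟫_ℝ)
    rw [hsq, hsq, hsq, ← add_div, ← hdist2 g h]
    apply div_le_div_of_nonneg_right _ h2.le
    calc ‖v (g * h) - v 1‖ = ‖(v g - v 1) + (v (g * h) - v g)‖ := by congr 1; abel
      _ ≤ _ := norm_add_le _ _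
  · intro x s h
    show |(⟪v 1, v 1⟫_ℝ - ⟪v (h⁻¹ * x * s), v 1⟫_ℝ) - (⟪v 1, v 1⟫_ℝ - ⟪v (h⁻¹ * x), v 1⟫_ℝ) -
      (⟪v 1, v 1⟫_ℝ - ⟪v (x * s), v 1⟫_ℝ) + (⟪v 1, v 1⟫_ℝ - ⟪v x, v 1⟫_ℝ)| ≤
      2 * (√(⟪v 1, v 1⟫_ℝ - ⟪v s, v 1⟫_ℝ) * √(⟪v 1, v 1⟫_ℝ - ⟪v h, v 1⟫_ℝ))
    have e1 : ⟪v (h⁻¹ * x * s), v 1⟫_ℝ = ⟪v (x * s), v h⟫_ℝ := by
      have := hv h (h⁻¹ * x * s) 1
      rw [mul_one] at this
      rw [← this]
      congr 2
      group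
    have e2 : ⟪v (h⁻¹ * x), v 1⟫_ℝ = ⟪v x, v h⟫_ℝ := by
      have := hv h (h⁻¹ * x) 1
      rw [mul_one] at this
      rw [← this]
      congr 2
      group
    have e3 : (⟪v 1, v 1⟫_ℝ - ⟪v (h⁻¹ * x * s), v 1⟫_ℝ) - (⟪v 1, v 1⟫_ℝ - ⟪v (h⁻¹ * x), v 1⟫_ℝ) -
      (⟪v 1, v 1⟫_ℝ - ⟪v (x * s), v 1⟫_ℝ) + (⟪v 1, v 1⟫_ℝ - ⟪v x, v 1⟫_ℝ) =
      - ⟪v (x * s) - v x, v h - v 1⟫_ℝ := by
      rw [e1, e2, inner_sub_left, inner_sub_right, inner_sub_right]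
      ring
    rw [e3, abs_neg, hsq, hsq]
    refine (abs_real_inner_le_norm _ _).trans (le_of_eq ?_)
    rw [hdist2 x s]
    rw [div_mul_div_comm, h22]
    ring

theorem neg.{u} : NegStmt.{u} := by
  intro Q _ J _ S F hF
  -- the translates
  have hmem : ∀ g : Q, Memℓp (E := fun _ : Q × J => ℝ) (fun p => F (g⁻¹ * p.1) p.2) 2 := by
    intro g
    apply memℓp_gen
    apply summable_of_ne_finset_zero (s := (S.image (fun x => g * x)) ×ˢ Finset.univ)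
    intro p hp
    have h1 : g⁻¹ * p.1 ∉ S := by
      intro h
      apply hp
      rw [Finset.mem_product]
      refine ⟨Finset.mem_image.2 ⟨g⁻¹ * p.1, h, by group⟩, Finset.mem_univ _⟩
    rw [hF _ h1 p.2]
    simp
  let v : Q → lp (fun _ : Q × J => ℝ) 2 := fun g => ⟨fun p => F (g⁻¹ * p.1) p.2, hmem g⟩
  have hinner : ∀ g h, inner ℝ (v g) (v h) = ∑' p : Q × J, F (h⁻¹ * p.1) p.2 * F (g⁻¹ * p.1) p.2 := by
    intro g h
    rw [lp.inner_eq_tsum]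
    rfl
  have hv : ∀ k g h, inner ℝ (v (k * g)) (v (k * h)) = inner ℝ (v g) (v h) := by
    intro k g h
    rw [hinner, hinner]
    rw [← Equiv.tsum_eq ((Equiv.mulLeft k).prodCongr (Equiv.refl J))]
    apply tsum_congr
    intro p
    have a1 : (k * h)⁻¹ * (((Equiv.mulLeft k).prodCongr (Equiv.refl J)) p).1 = h⁻¹ * p.1 := by
      show (k * h)⁻¹ * (k * p.1) = h⁻¹ * p.1
      group
    have a2 : (k * g)⁻¹ * (((Equiv.mulLeft k).prodCongr (Equiv.refl J)) p).1 = g⁻¹ * p.1 := by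
      show (k * g)⁻¹ * (k * p.1) = g⁻¹ * p.1
      group
    have a3 : (((Equiv.mulLeft k).prodCongr (Equiv.refl J)) p).2 = p.2 := rfl
    rw [a1, a2, a3]
  have hc : ∀ g, inner ℝ (v g) (v 1) = ∑ x ∈ S, ∑ j, F (g⁻¹ * x) j * F x j := by
    intro g
    rw [hinner, tsum_eq_sum (s := S ×ˢ Finset.univ)]
    · rw [Finset.sum_product]
      apply Finset.sum_congr rfl
      intro x _
      apply Finset.sum_congr rfl
      intro j _
      simp only [inv_one, one_mul]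
      ring
    · intro p hp
      have h1 : p.1 ∉ S := by
        intro h
        apply hp
        rw [Finset.mem_product]
        exact ⟨h, Finset.mem_univ _⟩
      simp only [inv_one, one_mul]
      rw [hF _ h1 p.2, zero_mul]
  have h := neg_of_inner v hv
  have e : (fun g => ∑ x ∈ S, ∑ j, F x j * F x j - ∑ x ∈ S, ∑ j, F (g⁻¹ * x) j * F x j) =
      (fun g => inner ℝ (v 1) (v 1) - inner ℝ (v g) (v 1)) := by
    funext g
    rw [hc g, hc 1]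
    simp only [inv_one, one_mul]
  rw [e]
  exact h

end Pool.Agent.NGM.H27
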